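import Mathlib

/-!
# Friedrichs' lemma in Euclidean space

`mol t` (t ≥ 1) : scaled bump function, `moll t v = mol t ⋆ v`.

* `moll_contDiff`, `moll_support`
* `tendsto_moll` : `moll t v → v` in `L²`
* `WeakP.moll` : constant coefficient systems
* `friedrichs` : the commutator with a `C¹` matrix function
-/

open MeasureTheory Set Filter Topology ContinuousLinearMap Function
open scoped Convolution ContDiff ENNReal NNReal

namespace EurHuhC.Fried

section Young

variable {E : Type*} [NormedAddCommGroup E] [InnerProductSpace ℝ E] [FiniteDimensional ℝ E]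
  [MeasurableSpace E] [BorelSpace E]

theorem cs_sq (κ u : E → ℝ≥0∞) (hκ : AEMeasurable κ volume) (hu : AEMeasurable u volume) :
    (∫⁻ y, κ y * u y) ^ 2 ≤ (∫⁻ y, κ y) * ∫⁻ y, κ y * u y ^ 2 := by
  have hpq : Real.HolderConjugate (2 : ℝ) 2 := Real.HolderConjugate.two_two
  have h := ENNReal.lintegral_mul_le_Lp_mul_Lq (volume : Measure E) hpq
    (f := fun y => κ y ^ (1 / 2 : ℝ)) (g := fun y => κ y ^ (1 / 2 : ℝ) * u y)
    (hκ.pow_const _) ((hκ.pow_const _).mul hu)
  have e1 : ∀ y, ((fun y => κ y ^ (1 / 2 : ℝ)) * fun y => κ y ^ (1 / 2 : ℝ) * u y) y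
      = κ y * u y := by
    intro y
    simp only [Pi.mul_apply]
    rw [← mul_assoc, ← ENNReal.rpow_add_of_nonneg _ _ (by norm_num) (by norm_num)]
    norm_num
  have e2 : ∀ y, ((κ y ^ (1 / 2 : ℝ)) ^ (2 : ℝ)) = κ y := by
    intro y
    rw [← ENNReal.rpow_mul]; norm_num
  have e3 : ∀ y, ((κ y ^ (1 / 2 : ℝ) * u y) ^ (2 : ℝ)) = κ y * u y ^ 2 := by
    intro y
    rw [ENNReal.mul_rpow_of_nonneg _ _ (by norm_num), e2]
    norm_num
  simp only [e1, e2, e3] at h
  calc (∫⁻ y, κ y * u y) ^ 2
      ≤ ((∫⁻ y, κ y) ^ (1 / 2 : ℝ) * (∫⁻ y, κ y * u y ^ 2) ^ (1 / 2 : ℝ)) ^ 2 := by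
        gcongr
    _ = (∫⁻ y, κ y) * ∫⁻ y, κ y * u y ^ 2 := by
        rw [mul_pow, ← ENNReal.rpow_natCast, ← ENNReal.rpow_natCast, ← ENNReal.rpow_mul,
          ← ENNReal.rpow_mul]
        norm_num

theorem young_sq (κ u : E → ℝ≥0∞) (hκ : Measurable κ) (hu : AEMeasurable u volume) :
    ∫⁻ x, (∫⁻ y, κ (x - y) * u y) ^ 2 ≤ (∫⁻ z, κ z) ^ 2 * ∫⁻ y, u y ^ 2 := by
  -- replace `u` by a measurable representative
  obtain ⟨u', hu'm, hu'⟩ := hu
  have e0 : ∀ x, ∫⁻ y, κ (x - y) * u y = ∫⁻ y, κ (x - y) * u' y := by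
    intro x
    refine lintegral_congr_ae ?_
    filter_upwards [hu'] with y hy
    rw [hy]
  have e1 : ∫⁻ y, u y ^ 2 = ∫⁻ y, u' y ^ 2 := by
    refine lintegral_congr_ae ?_
    filter_upwards [hu'] with y hy
    rw [hy]
  simp only [e0, e1]
  have hm2 : Measurable (fun p : E × E => κ (p.1 - p.2) * u' p.2 ^ 2) :=
    (hκ.comp (measurable_fst.sub measurable_snd)).mul ((hu'm.comp measurable_snd).pow_const 2)
  calc ∫⁻ x, (∫⁻ y, κ (x - y) * u' y) ^ 2
      ≤ ∫⁻ x, (∫⁻ y, κ (x - y)) * ∫⁻ y, κ (x - y) * u' y ^ 2 := by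
        refine lintegral_mono fun x => ?_
        exact cs_sq (fun y => κ (x - y)) u' (hκ.comp (measurable_const.sub measurable_id)).aemeasurable
          hu'm.aemeasurable
    _ = ∫⁻ x, (∫⁻ z, κ z) * ∫⁻ y, κ (x - y) * u' y ^ 2 := by
        refine lintegral_congr fun x => ?_
        rw [lintegral_sub_left_eq_self κ x]
    _ = (∫⁻ z, κ z) * ∫⁻ x, ∫⁻ y, κ (x - y) * u' y ^ 2 := by
        rw [lintegral_const_mul]
        exact Measurable.lintegral_prod_right' hm2
    _ = (∫⁻ z, κ z) * ∫⁻ y, ∫⁻ x, κ (x - y) * u' y ^ 2 := by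
        rw [lintegral_lintegral_swap]
        exact hm2.aemeasurable
    _ = (∫⁻ z, κ z) * ∫⁻ y, (∫⁻ z, κ z) * u' y ^ 2 := by
        congr 1
        refine lintegral_congr fun y => ?_
        have hm : Measurable fun x => κ (x - y) :=
          hκ.comp (measurable_id.sub measurable_const)
        rw [lintegral_mul_const _ hm, lintegral_sub_right_eq_self κ y]
    _ = (∫⁻ z, κ z) ^ 2 * ∫⁻ y, u' y ^ 2 := by
        rw [lintegral_const_mul _ (hu'm.pow_const 2), ← mul_assoc, sq]

end Young

section Mol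

variable (E : Type*) [NormedAddCommGroup E] [InnerProductSpace ℝ E] [FiniteDimensional ℝ E]
  [MeasurableSpace E] [BorelSpace E]

/-- the basic bump. -/
noncomputable def bump0 : ContDiffBump (0 : E) := ⟨1 / 2, 1, by norm_num, by norm_num⟩

noncomputable def rho0 : E → ℝ := (bump0 E).normed volume

theorem rho0_contDiff : ContDiff ℝ ∞ (rho0 E) := (bump0 E).contDiff_normed

theorem rho0_nonneg (x : E) : 0 ≤ rho0 E x := (bump0 E).nonneg_normed x

theorem rho0_integral : ∫ x, rho0 E x = 1 := (bump0 E).integral_normed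

theorem rho0_support : Function.support (rho0 E) = Metric.ball 0 1 :=
  (bump0 E).support_normed_eq

theorem rho0_compact : HasCompactSupport (rho0 E) := (bump0 E).hasCompactSupport_normed

/-- The mollifier with parameter `t`, supported in the ball of radius `1/t`. -/
noncomputable def mol (t : ℝ) : E → ℝ := fun x => t ^ (Module.finrank ℝ E) * rho0 E (t • x)

variable {E}

theorem mol_contDiff (t : ℝ) : ContDiff ℝ ∞ (mol E t) := by
  unfold mol
  exact contDiff_const.mul ((rho0_contDiff E).comp (contDiff_const_smul t))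

theorem mol_nonneg {t : ℝ} (ht : 0 < t) (x : E) : 0 ≤ mol E t x :=
  mul_nonneg (by positivity) (rho0_nonneg E _)

theorem mol_integral {t : ℝ} (ht : 0 < t) : ∫ x, mol E t x = 1 := by
  unfold mol
  rw [integral_const_mul, Measure.integral_comp_smul_of_nonneg _ _ _ (hR := ht.le), rho0_integral,
    smul_eq_mul, mul_one, mul_inv_cancel₀ (by positivity)]

theorem mol_support {t : ℝ} (ht : 0 < t) : Function.support (mol E t) = Metric.ball 0 (1 / t) := by
  ext x
  have h1 : x ∈ Function.support (mol E t) ↔ t • x ∈ Function.support (rho0 E) := by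
    simp only [mol, Function.mem_support, ne_eq, mul_eq_zero, not_or]
    constructor
    · exact fun h => h.2
    · exact fun h => ⟨by positivity, h⟩
  rw [h1, rho0_support, mem_ball_zero_iff, mem_ball_zero_iff, norm_smul, Real.norm_eq_abs,
    abs_of_pos ht, lt_div_iff₀ ht, mul_comm]

theorem mol_compact {t : ℝ} (ht : 0 < t) : HasCompactSupport (mol E t) := by
  refine HasCompactSupport.of_support_subset_isCompact (isCompact_closedBall (0 : E) (1 / t)) ?_
  rw [mol_support ht]
  exact Metric.ball_subset_closedBall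

theorem mol_integrable {t : ℝ} (ht : 0 < t) : Integrable (mol E t) :=
  (mol_contDiff t).continuous.integrable_of_hasCompactSupport (mol_compact ht)

theorem fderiv_mol (t : ℝ) (x : E) :
    fderiv ℝ (mol E t) x = (t ^ (Module.finrank ℝ E) * t) • fderiv ℝ (rho0 E) (t • x) := by
  have h0 : DifferentiableAt ℝ (rho0 E) (t • x) :=
    ((rho0_contDiff E).differentiable (by simp)).differentiableAt
  have h1 : HasFDerivAt (fun y : E => rho0 E (t • y)) ((fderiv ℝ (rho0 E) (t • x)).comp
      (t • ContinuousLinearMap.id ℝ E)) x :=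
    h0.hasFDerivAt.comp x ((hasFDerivAt_id x).const_smul t)
  have h2 := (h1.const_mul (t ^ (Module.finrank ℝ E))).fderiv
  unfold mol
  rw [h2]
  ext v
  simp [mul_assoc]

/-- the constant `M = ∫ |x| |∇ρ|`. -/
noncomputable def mC (E : Type*) [NormedAddCommGroup E] [InnerProductSpace ℝ E]
    [FiniteDimensional ℝ E] [MeasurableSpace E] [BorelSpace E] : ℝ :=
  ∫ x : E, ‖x‖ * ‖fderiv ℝ (rho0 E) x‖

theorem integrable_norm_mul_fderiv_mol {t : ℝ} (ht : 0 < t) :
    Integrable (fun x : E => ‖x‖ * ‖fderiv ℝ (mol E t) x‖) := by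
  have hc : Continuous (fderiv ℝ (mol E t)) := (mol_contDiff t).continuous_fderiv (by simp)
  refine (continuous_norm.mul hc.norm).integrable_of_hasCompactSupport ?_
  have h0 : HasCompactSupport (fderiv ℝ (mol E t)) := (mol_compact ht).fderiv (𝕜 := ℝ)
  have h1 : HasCompactSupport (fun x : E => ‖fderiv ℝ (mol E t) x‖) :=
    h0.comp_left norm_zero
  exact h1.mul_left

theorem integral_norm_mul_fderiv_mol {t : ℝ} (ht : 0 < t) :
    ∫ x : E, ‖x‖ * ‖fderiv ℝ (mol E t) x‖ = mC E := by
  have e : ∀ x : E, ‖x‖ * ‖fderiv ℝ (mol E t) x‖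
      = t ^ (Module.finrank ℝ E) * (fun y : E => ‖y‖ * ‖fderiv ℝ (rho0 E) y‖) (t • x) := by
    intro x
    rw [fderiv_mol, norm_smul, Real.norm_eq_abs, abs_mul, abs_pow, abs_of_pos ht]
    simp only [norm_smul, Real.norm_eq_abs, abs_of_pos ht]
    ring
  rw [integral_congr_ae (Filter.Eventually.of_forall e), integral_const_mul,
    Measure.integral_comp_smul_of_nonneg (volume : Measure E)
      (fun y : E => ‖y‖ * ‖fderiv ℝ (rho0 E) y‖) t (hR := ht.le), smul_eq_mul,
    ← mul_assoc, mul_inv_cancel₀ (by positivity), one_mul, mC]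

theorem mC_nonneg : 0 ≤ mC E := integral_nonneg fun x => by positivity

end Mol

section Moll

set_option linter.unusedSectionVars false
set_option maxHeartbeats 400000

variable {E : Type*} [NormedAddCommGroup E] [InnerProductSpace ℝ E] [FiniteDimensional ℝ E]
  [MeasurableSpace E] [BorelSpace E]
variable {V : Type*} [NormedAddCommGroup V] [NormedSpace ℝ V]
variable {W : Type*} [NormedAddCommGroup W] [NormedSpace ℝ W]

theorem eLpNorm_two_eq {X F : Type*} [MeasurableSpace X] (μ : Measure X) [NormedAddCommGroup F]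
    (f : X → F) : eLpNorm f 2 μ = (∫⁻ x, ‖f x‖ₑ ^ 2 ∂μ) ^ (1 / 2 : ℝ) := by
  rw [eLpNorm_eq_lintegral_rpow_enorm_toReal (by norm_num) (by norm_num)]
  simp

/-- `L²` bound for kernels dominated by a convolution kernel. -/
theorem eLpNorm_le_of_kernel {V W : Type*} [NormedAddCommGroup V] [NormedAddCommGroup W]
    (κ : E → ℝ≥0∞) (hκ : Measurable κ) (v : E → V) (hv : AEStronglyMeasurable v volume)
    (f : E → W) (h : ∀ x, ‖f x‖ₑ ≤ ∫⁻ y, κ (x - y) * ‖v y‖ₑ) :
    eLpNorm f 2 volume ≤ (∫⁻ z, κ z) * eLpNorm v 2 volume := by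
  rw [eLpNorm_two_eq, eLpNorm_two_eq]
  have h1 : ∫⁻ x, ‖f x‖ₑ ^ 2 ≤ (∫⁻ z, κ z) ^ 2 * ∫⁻ y, ‖v y‖ₑ ^ 2 :=
    (lintegral_mono fun x => by gcongr; exact h x).trans (young_sq κ (fun y => ‖v y‖ₑ) hκ hv.enorm)
  calc (∫⁻ x, ‖f x‖ₑ ^ 2) ^ (1 / 2 : ℝ)
      ≤ ((∫⁻ z, κ z) ^ 2 * ∫⁻ y, ‖v y‖ₑ ^ 2) ^ (1 / 2 : ℝ) := by gcongr
    _ = (∫⁻ z, κ z) * (∫⁻ y, ‖v y‖ₑ ^ 2) ^ (1 / 2 : ℝ) := by
        rw [ENNReal.mul_rpow_of_nonneg _ _ (by norm_num), ← ENNReal.rpow_natCast,
          ← ENNReal.rpow_mul]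
        norm_num

/-- mollification -/
noncomputable def moll (t : ℝ) (v : E → V) : E → V :=
  mol E t ⋆[lsmul ℝ ℝ, volume] v

theorem moll_apply (t : ℝ) (v : E → V) (x : E) :
    moll t v x = ∫ y, mol E t (x - y) • v y := by
  unfold moll
  rw [convolution_lsmul_swap]

theorem moll_contDiff {t : ℝ} (ht : 0 < t) {v : E → V} (hv : LocallyIntegrable v) :
    ContDiff ℝ ∞ (moll t v) :=
  (mol_compact ht).contDiff_convolution_left (n := ⊤) _ (mol_contDiff t) hv

theorem moll_support {t : ℝ} (ht : 0 < t) (v : E → V) :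
    Function.support (moll t v) ⊆ Metric.thickening (1 / t) (Function.support v) := by
  intro x hx
  by_contra hcon
  apply hx
  rw [moll_apply]
  apply integral_eq_zero_of_ae
  refine Filter.Eventually.of_forall fun y => ?_
  by_cases hy : y ∈ Function.support v
  · have h1 : (x - y) ∉ Function.support (mol E t) := by
      rw [mol_support ht]
      intro h2
      apply hcon
      rw [Metric.mem_thickening_iff]
      refine ⟨y, hy, ?_⟩
      rw [mem_ball_zero_iff] at h2
      rwa [dist_eq_norm]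
    simp only [Pi.zero_apply, Function.notMem_support.1 h1, zero_smul]
  · simp [Function.notMem_support.1 hy]

theorem moll_compact {t : ℝ} (ht : 0 < t) {v : E → V} (hv : HasCompactSupport v) :
    HasCompactSupport (moll t v) :=
  HasCompactSupport.convolution _ (mol_compact ht) hv

theorem integrable_kernel {F G' : Type*} [NormedAddCommGroup F] [NormedSpace ℝ F]
    [NormedAddCommGroup G'] [NormedSpace ℝ G'] (L : F →L[ℝ] V →L[ℝ] G') {φ : E → F}
    (hφ : Continuous φ) (hφc : HasCompactSupport φ) {v : E → V} (hv : LocallyIntegrable v)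
    (x : E) : Integrable (fun y => L (φ (x - y)) (v y)) :=
  (hφc.convolutionExists_left L hφ hv x).integrable_swap

theorem fderiv_moll {t : ℝ} (ht : 0 < t) {v : E → V} (hv : LocallyIntegrable v) (x : E) :
    HasFDerivAt (moll t v) (∫ y, (fderiv ℝ (mol E t) (x - y)).smulRight (v y)) x := by
  have h := (mol_compact ht).hasFDerivAt_convolution_left (lsmul ℝ ℝ : ℝ →L[ℝ] V →L[ℝ] V)
    ((mol_contDiff (E := E) t).of_le (by exact_mod_cast le_top)) hv x (μ := volume)
  rw [convolution_eq_swap] at h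
  refine h.congr_fderiv (integral_congr_ae (Filter.Eventually.of_forall fun y => ?_))
  ext w
  simp [precompL_apply]

theorem integrable_smulRight {t : ℝ} (ht : 0 < t) {v : E → V} (hv : LocallyIntegrable v) (x : E) :
    Integrable (fun y => (fderiv ℝ (mol E t) (x - y)).smulRight (v y)) := by
  have h := integrable_kernel (precompL E (lsmul ℝ ℝ : ℝ →L[ℝ] V →L[ℝ] V))
    ((mol_contDiff (E := E) t).continuous_fderiv (by simp)) ((mol_compact ht).fderiv (𝕜 := ℝ)) hv x
  refine h.congr (Filter.Eventually.of_forall fun y => ?_)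
  ext w
  simp [precompL_apply]

theorem lintegral_mol {t : ℝ} (ht : 0 < t) : ∫⁻ x : E, ‖mol E t x‖ₑ = 1 := by
  have h1 : ∀ x : E, ‖mol E t x‖ₑ = ENNReal.ofReal (mol E t x) := fun x => by
    rw [← Real.enorm_of_nonneg (mol_nonneg ht x)]
  simp_rw [h1]
  rw [← ofReal_integral_eq_lintegral_ofReal (mol_integrable ht)
    (Filter.Eventually.of_forall (mol_nonneg ht)), mol_integral ht, ENNReal.ofReal_one]

omit [NormedSpace ℝ V] in
theorem locInt {v : E → V} (hv : MemLp v 2 volume) : LocallyIntegrable v volume :=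
  hv.locallyIntegrable (by norm_num)

theorem enorm_moll_le {t : ℝ} (v : E → V) (x : E) :
    ‖moll t v x‖ₑ ≤ ∫⁻ y, ‖mol E t (x - y)‖ₑ * ‖v y‖ₑ := by
  rw [moll_apply]
  refine (enorm_integral_le_lintegral_enorm _).trans (lintegral_mono fun y => ?_)
  rw [enorm_smul]

theorem eLpNorm_moll_le {t : ℝ} (ht : 0 < t) {v : E → V} (hv : AEStronglyMeasurable v volume) :
    eLpNorm (moll t v) 2 volume ≤ eLpNorm v 2 volume := by
  have h := eLpNorm_le_of_kernel (fun z : E => ‖mol E t z‖ₑ)
    ((mol_contDiff t).continuous.measurable.enorm) v hv (moll t v) (enorm_moll_le v)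
  rwa [lintegral_mol ht, one_mul] at h

theorem moll_sub {t : ℝ} (ht : 0 < t) {v w : E → V} (hv : LocallyIntegrable v)
    (hw : LocallyIntegrable w) (x : E) : moll t (v - w) x = moll t v x - moll t w x := by
  rw [moll_apply, moll_apply, moll_apply, ← integral_sub]
  · refine integral_congr_ae (Filter.Eventually.of_forall fun y => ?_)
    simp [smul_sub]
  · exact integrable_kernel (lsmul ℝ ℝ : ℝ →L[ℝ] V →L[ℝ] V) (mol_contDiff t).continuous
      (mol_compact ht) hv x
  · exact integrable_kernel (lsmul ℝ ℝ : ℝ →L[ℝ] V →L[ℝ] V) (mol_contDiff t).continuous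
      (mol_compact ht) hw x

variable [CompleteSpace V] [CompleteSpace W]

theorem tendsto_moll_smooth {g : E → V} (hg : Continuous g) (hgc : HasCompactSupport g) :
    Tendsto (fun t : ℝ => eLpNorm (moll t g - g) 2 volume) atTop (𝓝 0) := by
  have hu : UniformContinuous g := hgc.uniformContinuous_of_continuous hg
  set K : Set E := Metric.cthickening 1 (tsupport g) with hK
  have hKc : IsCompact K := IsCompact.cthickening hgc
  have hKm : volume K < ⊤ := hKc.measure_lt_top
  rw [ENNReal.tendsto_atTop_zero]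
  intro ε hε
  -- choose c with ofReal c * vol K ^ (1/2) ≤ ε
  obtain ⟨c, hc, hcε⟩ : ∃ c : ℝ, 0 < c ∧
      ENNReal.ofReal c * volume K ^ (1 / (2 : ℝ≥0∞).toReal) ≤ ε := by
    have hA : volume K ^ (1 / (2 : ℝ≥0∞).toReal) ≠ ⊤ :=
      ENNReal.rpow_ne_top_of_nonneg (by simp) hKm.ne
    have ht : Tendsto (fun c : ℝ => ENNReal.ofReal c * volume K ^ (1 / (2 : ℝ≥0∞).toReal))
        (𝓝[>] 0) (𝓝 0) := by
      have h1 : Tendsto (fun c : ℝ => ENNReal.ofReal c) (𝓝[>] 0) (𝓝 0) := by
        have := (ENNReal.continuous_ofReal.tendsto 0).mono_left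
          (nhdsWithin_le_nhds (s := Set.Ioi (0:ℝ)))
        simpa using this
      have h2 := ENNReal.Tendsto.mul_const h1 (Or.inr hA)
      simpa using h2
    have h3 := (ht.eventually (Iic_mem_nhds hε)).and self_mem_nhdsWithin
    obtain ⟨c, hc1, hc2⟩ := h3.exists
    exact ⟨c, hc2, hc1⟩
  obtain ⟨δ, hδ, hδg⟩ := Metric.uniformContinuous_iff.1 hu c hc
  refine ⟨max 1 (1 / δ + 1), fun t ht => ?_⟩
  have ht1 : 1 ≤ t := (le_max_left _ _).trans ht
  have ht0 : 0 < t := by linarith
  have htδ : 1 / t < δ := by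
    have : 1 / δ < t := by
      have := (le_max_right _ _).trans ht
      linarith
    rwa [div_lt_iff₀ ht0, ← div_lt_iff₀' hδ]
  have hd : ∀ x, dist (moll t g x) (g x) ≤ c := by
    intro x
    refine dist_convolution_le hc.le (mol_support ht0).subset (mol_nonneg ht0) (mol_integral ht0)
      hg.aestronglyMeasurable fun y hy => ?_
    refine (hδg ?_).le
    exact lt_trans (Metric.mem_ball.1 hy) htδ
  have hs1 : Function.support (moll t g) ⊆ K := by
    refine (moll_support ht0 g).trans ?_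
    refine (Metric.thickening_mono (by rw [div_le_one ht0]; exact ht1) _).trans ?_
    refine (Metric.thickening_subset_of_subset _ (subset_tsupport g)).trans ?_
    exact Metric.thickening_subset_cthickening _ _
  have hs2 : Function.support g ⊆ K :=
    (subset_tsupport g).trans (Metric.self_subset_cthickening _)
  exact (eLpNorm_sub_le_of_dist_bdd volume (by norm_num) hKc.measurableSet hc.le hd hs1 hs2).trans
    hcε

theorem tendsto_moll {v : E → V} (hv : MemLp v 2 volume) :
    Tendsto (fun t : ℝ => eLpNorm (moll t v - v) 2 volume) atTop (𝓝 0) := by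
  rw [ENNReal.tendsto_atTop_zero]
  intro ε hε
  rcases eq_or_ne ε ⊤ with rfl | hεt
  · exact ⟨0, fun _ _ => le_top⟩
  have h3 : 0 < ε.toReal / 3 := by
    have := ENNReal.toReal_pos hε.ne' hεt
    positivity
  obtain ⟨g, hgc, hg, hvg⟩ := hv.exist_eLpNorm_sub_le (by norm_num) (by norm_num) h3
  obtain ⟨T, hT⟩ := (ENNReal.tendsto_atTop_zero.1 (tendsto_moll_smooth hg.continuous hgc))
    (ENNReal.ofReal (ε.toReal / 3)) (by simpa using h3)
  have hgm : MemLp g 2 volume := hg.continuous.memLp_of_hasCompactSupport hgc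
  refine ⟨max 1 T, fun t ht => ?_⟩
  have ht0 : 0 < t := lt_of_lt_of_le one_pos ((le_max_left _ _).trans ht)
  have e : moll t v - v = moll t (v - g) + ((moll t g - g) + (g - v)) := by
    funext x
    simp only [Pi.sub_apply, Pi.add_apply]
    rw [moll_sub ht0 (locInt hv) (locInt hgm)]
    abel
  have hm1 : AEStronglyMeasurable (moll t (v - g)) volume :=
    (moll_contDiff ht0 (locInt (hv.sub hgm))).continuous.aestronglyMeasurable
  have hm2 : AEStronglyMeasurable (moll t g) volume :=
    (moll_contDiff ht0 (locInt hgm)).continuous.aestronglyMeasurable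
  rw [e]
  calc eLpNorm (moll t (v - g) + ((moll t g - g) + (g - v))) 2 volume
      ≤ eLpNorm (moll t (v - g)) 2 volume + eLpNorm ((moll t g - g) + (g - v)) 2 volume :=
        eLpNorm_add_le hm1 ((hm2.sub hgm.1).add (hgm.1.sub hv.1)) (by norm_num)
    _ ≤ eLpNorm (v - g) 2 volume + (eLpNorm (moll t g - g) 2 volume + eLpNorm (g - v) 2 volume) := by
        gcongr
        · exact eLpNorm_moll_le ht0 (hv.1.sub hgm.1)
        · exact eLpNorm_add_le (hm2.sub hgm.1) (hgm.1.sub hv.1) (by norm_num)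
    _ ≤ ENNReal.ofReal (ε.toReal / 3) + (ENNReal.ofReal (ε.toReal / 3)
          + ENNReal.ofReal (ε.toReal / 3)) := by
        gcongr
        · exact hT t ((le_max_right _ _).trans ht)
        · rw [eLpNorm_sub_comm]; exact hvg
    _ = ε := by
        rw [← ENNReal.ofReal_add h3.le h3.le, ← ENNReal.ofReal_add h3.le (by positivity)]
        rw [show ε.toReal / 3 + (ε.toReal / 3 + ε.toReal / 3) = ε.toReal by ring]
        exact ENNReal.ofReal_toReal hεt

/-- Weak formulation with scalar test functions of `T (D v) = f`, `T` a constant coefficient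
symbol. -/
def WeakP (T : (E →L[ℝ] V) →L[ℝ] W) (v : E → V) (f : E → W) : Prop :=
  ∀ φ : E → ℝ, ContDiff ℝ ∞ φ → HasCompactSupport φ →
    ∫ x, T ((fderiv ℝ φ x).smulRight (v x)) = - ∫ x, φ x • f x

theorem WeakP.moll {T : (E →L[ℝ] V) →L[ℝ] W} {v : E → V} {f : E → W} (h : WeakP T v f)
    (hv : LocallyIntegrable v) {t : ℝ} (ht : 0 < t) (x : E) :
    T (fderiv ℝ (moll t v) x) = Fried.moll t f x := by
  rw [(fderiv_moll ht hv x).fderiv, moll_apply,
    ← ContinuousLinearMap.integral_comp_comm T (integrable_smulRight ht hv x)]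
  have hsm : ContDiff ℝ ∞ (fun y : E => mol E t (x - y)) :=
    (mol_contDiff t).comp (contDiff_const.sub contDiff_id)
  have hcs : HasCompactSupport (fun y : E => mol E t (x - y)) :=
    (mol_compact ht).comp_homeomorph (Homeomorph.subLeft x)
  have h1 := h (fun y => mol E t (x - y)) hsm hcs
  have h2 : ∀ y : E, fderiv ℝ (fun y : E => mol E t (x - y)) y = - fderiv ℝ (mol E t) (x - y) := by
    intro y
    have hd : HasFDerivAt (mol E t) (fderiv ℝ (mol E t) (x - y)) (x - y) :=
      ((mol_contDiff t).differentiable (by simp)).differentiableAt.hasFDerivAt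
    have hd2 : HasFDerivAt (fun y : E => x - y) (-ContinuousLinearMap.id ℝ E) y :=
      (hasFDerivAt_id y).const_sub x
    have := (hd.comp y hd2).fderiv
    simp only [Function.comp_def] at this
    rw [this]
    ext w; simp
  simp only [h2] at h1
  have h3 : ∀ y : E, T ((-fderiv ℝ (mol E t) (x - y)).smulRight (v y))
      = - T ((fderiv ℝ (mol E t) (x - y)).smulRight (v y)) := by
    intro y
    rw [← map_neg]
    congr 1
    ext w; simp
  simp only [h3, integral_neg, neg_inj] at h1
  exact h1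

/-- the Friedrichs commutator `S (ρ_t ⋆ v) - ρ_t ⋆ (S v)`. -/
noncomputable def comm (S : E → V →L[ℝ] W) (t : ℝ) (v : E → V) : E → W :=
  fun x => S x (moll t v x) - moll t (fun y => S y (v y)) x

theorem locInt_S {S : E → V →L[ℝ] W} (hS : Continuous S) {v : E → V}
    (hv : LocallyIntegrable v) : LocallyIntegrable (fun y => S y (v y)) := by
  rw [locallyIntegrable_iff] at hv ⊢
  intro K hK
  have h1 : IntegrableOn v K := hv K hK
  obtain ⟨C, hC⟩ := hK.exists_bound_of_continuousOn hS.continuousOn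
  have hm : AEStronglyMeasurable (fun y => S y (v y)) (volume.restrict K) :=
    ContinuousLinearMap.aestronglyMeasurable_comp₂
      (ContinuousLinearMap.id ℝ (V →L[ℝ] W)) hS.aestronglyMeasurable h1.1
  refine Integrable.mono' (h1.norm.const_mul C) hm ?_
  filter_upwards [ae_restrict_mem hK.measurableSet] with y hy
  exact (ContinuousLinearMap.le_opNorm _ _).trans (mul_le_mul_of_nonneg_right (hC y hy) (norm_nonneg _))

theorem hasFDerivAt_comm {S : E → V →L[ℝ] W} (hS : ContDiff ℝ 1 S) {t : ℝ} (ht : 0 < t)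
    {v : E → V} (hv : LocallyIntegrable v) (x : E) :
    HasFDerivAt (comm S t v)
      ((fderiv ℝ S x).flip (moll t v x)
        + ∫ y, (fderiv ℝ (mol E t) (x - y)).smulRight ((S x - S y) (v y))) x := by
  have h1 : HasFDerivAt S (fderiv ℝ S x) x :=
    (hS.differentiable (by norm_num)).differentiableAt.hasFDerivAt
  have h2 := fderiv_moll ht hv x
  have h3 := fderiv_moll ht (locInt_S hS.continuous hv) x
  have h4 := (h1.clm_apply h2).sub h3
  refine h4.congr_fderiv ?_
  have e1 : (S x).comp (∫ y, (fderiv ℝ (mol E t) (x - y)).smulRight (v y))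
      = ∫ y, (S x).comp ((fderiv ℝ (mol E t) (x - y)).smulRight (v y)) :=
    (ContinuousLinearMap.integral_comp_comm (compL ℝ E V W (S x)) (integrable_smulRight ht hv x)).symm
  have i1 : Integrable (fun y => (S x).comp ((fderiv ℝ (mol E t) (x - y)).smulRight (v y))) :=
    ContinuousLinearMap.integrable_comp (compL ℝ E V W (S x)) (integrable_smulRight ht hv x)
  have i2 := integrable_smulRight ht (locInt_S hS.continuous hv) x
  rw [e1, add_comm (∫ y, (S x).comp ((fderiv ℝ (mol E t) (x - y)).smulRight (v y))) _,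
    add_sub_assoc, ← integral_sub i1 i2]
  congr 1
  refine integral_congr_ae (Filter.Eventually.of_forall fun y => ?_)
  ext w
  simp [smul_sub]

/-- for smooth compactly supported functions mollification commutes with the derivative. -/
theorem fderiv_moll_smooth {t : ℝ} (ht : 0 < t) {g : E → V} (hg : ContDiff ℝ 1 g)
    (hgc : HasCompactSupport g) (x : E) :
    fderiv ℝ (moll t g) x = moll t (fderiv ℝ g) x := by
  have h := (hgc.hasFDerivAt_convolution_right (lsmul ℝ ℝ : ℝ →L[ℝ] V →L[ℝ] V)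
    ((mol_integrable (E := E) ht).locallyIntegrable) hg x (μ := volume)).fderiv
  unfold moll
  rw [h]
  simp only [convolution_def]
  refine integral_congr_ae (Filter.Eventually.of_forall fun y => ?_)
  ext w
  simp [precompR_apply]

theorem eLpNorm_comm_le {S : E → V →L[ℝ] W} (hS : ContDiff ℝ 1 S) {L : ℝ} (hL : 0 ≤ L)
    (hSL : ∀ x, ‖fderiv ℝ S x‖ ≤ L) {t : ℝ} (ht : 0 < t) {v : E → V} (hv : MemLp v 2 volume) :
    eLpNorm (fderiv ℝ (comm S t v)) 2 volume
      ≤ ENNReal.ofReal (L * (1 + mC E)) * eLpNorm v 2 volume := by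
  have hlip : ∀ x y, ‖S x - S y‖ ≤ L * ‖x - y‖ := by
    intro x y
    exact Convex.norm_image_sub_le_of_norm_fderiv_le (𝕜 := ℝ) (s := Set.univ)
      (fun z _ => (hS.differentiable (by norm_num)).differentiableAt) (fun z _ => hSL z)
      convex_univ (Set.mem_univ _) (Set.mem_univ _)
  set κ : E → ℝ := fun z => L * mol E t z + L * (‖z‖ * ‖fderiv ℝ (mol E t) z‖) with hκ
  have hκc : Continuous κ :=
    (continuous_const.mul (mol_contDiff t).continuous).add
      (continuous_const.mul (continuous_norm.mul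
        ((mol_contDiff t).continuous_fderiv (by simp)).norm))
  have hκ0 : ∀ z, 0 ≤ κ z := fun z =>
    add_nonneg (mul_nonneg hL (mol_nonneg ht z)) (by positivity)
  have hκi : ∫⁻ z, ENNReal.ofReal (κ z) = ENNReal.ofReal (L * (1 + mC E)) := by
    rw [← ofReal_integral_eq_lintegral_ofReal _ (Filter.Eventually.of_forall hκ0)]
    · congr 1
      simp only [hκ]
      rw [integral_add ((mol_integrable ht).const_mul _)
        ((integrable_norm_mul_fderiv_mol ht).const_mul _), integral_const_mul, integral_const_mul,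
        mol_integral ht, integral_norm_mul_fderiv_mol ht]
      ring
    · exact ((mol_integrable ht).const_mul _).add ((integrable_norm_mul_fderiv_mol ht).const_mul _)
  rw [← hκi]
  refine eLpNorm_le_of_kernel (fun z => ENNReal.ofReal (κ z)) hκc.measurable.ennreal_ofReal v hv.1 _
    fun x => ?_
  rw [(hasFDerivAt_comm hS ht (locInt hv) x).fderiv]
  have b1 : ‖(fderiv ℝ S x).flip (moll t v x)‖ₑ
      ≤ ∫⁻ y, ENNReal.ofReal (L * mol E t (x - y)) * ‖v y‖ₑ := by
    have h1 : ‖(fderiv ℝ S x).flip (moll t v x)‖ ≤ L * ‖moll t v x‖ := by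
      refine (ContinuousLinearMap.le_opNorm _ _).trans ?_
      rw [ContinuousLinearMap.opNorm_flip]
      exact mul_le_mul_of_nonneg_right (hSL x) (norm_nonneg _)
    calc ‖(fderiv ℝ S x).flip (moll t v x)‖ₑ
        ≤ ENNReal.ofReal L * ‖moll t v x‖ₑ := by
          rw [← ofReal_norm, ← ofReal_norm, ← ENNReal.ofReal_mul hL]
          exact ENNReal.ofReal_le_ofReal h1
      _ ≤ ENNReal.ofReal L * ∫⁻ y, ‖mol E t (x - y)‖ₑ * ‖v y‖ₑ := by
          gcongr; exact enorm_moll_le v x
      _ = ∫⁻ y, ENNReal.ofReal (L * mol E t (x - y)) * ‖v y‖ₑ := by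
          rw [← lintegral_const_mul' _ _ (by simp)]
          refine lintegral_congr fun y => ?_
          rw [ENNReal.ofReal_mul hL, Real.enorm_of_nonneg (mol_nonneg ht _), mul_assoc]
  have b2 : ‖∫ y, (fderiv ℝ (mol E t) (x - y)).smulRight ((S x - S y) (v y))‖ₑ
      ≤ ∫⁻ y, ENNReal.ofReal (L * (‖x - y‖ * ‖fderiv ℝ (mol E t) (x - y)‖)) * ‖v y‖ₑ := by
    refine (enorm_integral_le_lintegral_enorm _).trans (lintegral_mono fun y => ?_)
    rw [← ofReal_norm, ← ofReal_norm, ← ENNReal.ofReal_mul (by positivity)]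
    refine ENNReal.ofReal_le_ofReal ?_
    rw [ContinuousLinearMap.norm_smulRight_apply]
    calc ‖fderiv ℝ (mol E t) (x - y)‖ * ‖(S x - S y) (v y)‖
        ≤ ‖fderiv ℝ (mol E t) (x - y)‖ * ((L * ‖x - y‖) * ‖v y‖) := by
          gcongr
          exact (ContinuousLinearMap.le_opNorm _ _).trans
            (mul_le_mul_of_nonneg_right (hlip x y) (norm_nonneg _))
      _ = L * (‖x - y‖ * ‖fderiv ℝ (mol E t) (x - y)‖) * ‖v y‖ := by ring
  have b3 := enorm_add_le ((fderiv ℝ S x).flip (moll t v x))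
    (∫ y, (fderiv ℝ (mol E t) (x - y)).smulRight ((S x - S y) (v y)))
  refine b3.trans ((add_le_add b1 b2).trans ?_)
  rw [← lintegral_add_left']
  · refine lintegral_mono fun y => ?_
    rw [← add_mul, ← ENNReal.ofReal_add (mul_nonneg hL (mol_nonneg ht _)) (by positivity)]
  · refine AEMeasurable.mul ?_ hv.1.enorm
    exact ((continuous_const.mul ((mol_contDiff t).continuous.comp
      (continuous_const.sub continuous_id))).measurable.ennreal_ofReal).aemeasurable

theorem eLpNorm_le_mul' {F G' : Type*} [NormedAddCommGroup F] [NormedAddCommGroup G']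
    {f : E → F} {g : E → G'} {L : ℝ} (hL : 0 ≤ L) (h : ∀ x, ‖f x‖ ≤ L * ‖g x‖) :
    eLpNorm f 2 volume ≤ ENNReal.ofReal L * eLpNorm g 2 volume := by
  have h1 : ∀ᵐ x ∂(volume : Measure E), ‖f x‖₊ ≤ L.toNNReal * ‖g x‖₊ :=
    Filter.Eventually.of_forall fun x => by
      rw [← NNReal.coe_le_coe]
      simpa [Real.coe_toNNReal L hL] using h x
  have h2 := eLpNorm_le_nnreal_smul_eLpNorm_of_ae_le_mul h1 2
  refine h2.trans (le_of_eq ?_)
  rw [ENNReal.smul_def, smul_eq_mul, ENNReal.ofReal]

theorem tendsto_comm_smooth {S : E → V →L[ℝ] W} (hS : ContDiff ℝ 1 S) {L : ℝ} (hL : 0 ≤ L)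
    (hS0 : ∀ x, ‖S x‖ ≤ L) (hSL : ∀ x, ‖fderiv ℝ S x‖ ≤ L) {g : E → V} (hg : ContDiff ℝ 1 g)
    (hgc : HasCompactSupport g) :
    Tendsto (fun t : ℝ => eLpNorm (fderiv ℝ (comm S t g)) 2 volume) atTop (𝓝 0) := by
  have hgl : LocallyIntegrable g volume := hg.continuous.locallyIntegrable
  set h : E → W := fun y => S y (g y) with hh
  have hhd : ContDiff ℝ 1 h := hS.clm_apply hg
  have hhc : HasCompactSupport h := by
    refine hgc.mono fun x hx => ?_
    intro h0
    apply hx
    simp [hh, h0]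
  have hDg : Continuous (fderiv ℝ g) := hg.continuous_fderiv (by simp)
  have hDh : Continuous (fderiv ℝ h) := hhd.continuous_fderiv (by simp)
  have hDgc : HasCompactSupport (fderiv ℝ g) := hgc.fderiv (𝕜 := ℝ)
  have hDhc : HasCompactSupport (fderiv ℝ h) := hhc.fderiv (𝕜 := ℝ)
  have t1 := tendsto_moll_smooth hg.continuous hgc
  have t2 := tendsto_moll_smooth hDg hDgc
  have t3 := tendsto_moll_smooth hDh hDhc
  have key : ∀ t : ℝ, 0 < t → eLpNorm (fderiv ℝ (comm S t g)) 2 volume
      ≤ ENNReal.ofReal L * eLpNorm (moll t g - g) 2 volume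
        + (ENNReal.ofReal L * eLpNorm (moll t (fderiv ℝ g) - fderiv ℝ g) 2 volume
        + eLpNorm (moll t (fderiv ℝ h) - fderiv ℝ h) 2 volume) := by
    intro t ht
    have hd1 : Differentiable ℝ (moll t g) := (moll_contDiff ht hgl).differentiable (by simp)
    have hd2 : Differentiable ℝ (moll t h) :=
      (moll_contDiff ht hhd.continuous.locallyIntegrable).differentiable (by simp)
    have hSd : Differentiable ℝ S := hS.differentiable (by norm_num)
    have hgd : Differentiable ℝ g := hg.differentiable (by norm_num)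
    have e : fderiv ℝ (comm S t g) = (fun x => (fderiv ℝ S x).flip ((moll t g - g) x))
        + ((fun x => (S x).comp ((moll t (fderiv ℝ g) - fderiv ℝ g) x))
        + - (moll t (fderiv ℝ h) - fderiv ℝ h)) := by
      funext x
      have a1 : HasFDerivAt (comm S t g) _ x :=
        ((hSd x).hasFDerivAt.clm_apply (hd1 x).hasFDerivAt).sub (hd2 x).hasFDerivAt
      have a2 : HasFDerivAt h _ x := (hSd x).hasFDerivAt.clm_apply (hgd x).hasFDerivAt
      rw [a1.fderiv, fderiv_moll_smooth ht hg hgc, fderiv_moll_smooth ht hhd hhc]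
      simp only [Pi.add_apply, Pi.sub_apply, Pi.neg_apply]
      rw [a2.fderiv]
      ext w
      simp
      abel
    have c1 : Continuous (moll t g - g) := (moll_contDiff ht hgl).continuous.sub hg.continuous
    have c2 : Continuous (moll t (fderiv ℝ g) - fderiv ℝ g) :=
      (moll_contDiff ht hDg.locallyIntegrable).continuous.sub hDg
    have c3 : Continuous (moll t (fderiv ℝ h) - fderiv ℝ h) :=
      (moll_contDiff ht hDh.locallyIntegrable).continuous.sub hDh
    have hDS : Continuous (fderiv ℝ S) := hS.continuous_fderiv (by simp)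
    have m1 : Continuous (fun x => (fderiv ℝ S x).flip ((moll t g - g) x)) :=
      ((flipₗᵢ ℝ E V W).continuous.comp hDS).clm_apply c1
    have m2 : Continuous (fun x => (S x).comp ((moll t (fderiv ℝ g) - fderiv ℝ g) x)) :=
      hS.continuous.clm_comp c2
    rw [e]
    refine (eLpNorm_add_le m1.aestronglyMeasurable
      (m2.aestronglyMeasurable.add c3.neg.aestronglyMeasurable) (by norm_num)).trans ?_
    gcongr
    · refine eLpNorm_le_mul' hL fun x => ?_
      refine (ContinuousLinearMap.le_opNorm _ _).trans ?_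
      rw [ContinuousLinearMap.opNorm_flip]
      exact mul_le_mul_of_nonneg_right (hSL x) (norm_nonneg _)
    · refine (eLpNorm_add_le m2.aestronglyMeasurable c3.neg.aestronglyMeasurable
        (by norm_num)).trans ?_
      gcongr
      · refine eLpNorm_le_mul' hL fun x => ?_
        exact (ContinuousLinearMap.opNorm_comp_le _ _).trans
          (mul_le_mul_of_nonneg_right (hS0 x) (norm_nonneg _))
      · rw [eLpNorm_neg]
  have hlim : Tendsto (fun t : ℝ => ENNReal.ofReal L * eLpNorm (moll t g - g) 2 volume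
        + (ENNReal.ofReal L * eLpNorm (moll t (fderiv ℝ g) - fderiv ℝ g) 2 volume
        + eLpNorm (moll t (fderiv ℝ h) - fderiv ℝ h) 2 volume)) atTop (𝓝 0) := by
    have u1 := ENNReal.Tendsto.const_mul (a := ENNReal.ofReal L) t1 (Or.inr ENNReal.ofReal_ne_top)
    have u2 := ENNReal.Tendsto.const_mul (a := ENNReal.ofReal L) t2 (Or.inr ENNReal.ofReal_ne_top)
    have := u1.add (u2.add t3)
    simpa using this
  refine tendsto_of_tendsto_of_tendsto_of_le_of_le' tendsto_const_nhds hlim
    (Filter.Eventually.of_forall fun _ => zero_le) ?_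
  filter_upwards [eventually_gt_atTop 0] with t ht using key t ht

theorem contDiff_comm {S : E → V →L[ℝ] W} (hS : ContDiff ℝ 1 S) {t : ℝ} (ht : 0 < t)
    {w : E → V} (hw : MemLp w 2 volume) : ContDiff ℝ 1 (comm S t w) :=
  ContDiff.sub (hS.clm_apply ((moll_contDiff ht (locInt hw)).of_le
    (by exact_mod_cast le_top))) ((moll_contDiff ht
      (locInt_S hS.continuous (locInt hw))).of_le (by exact_mod_cast le_top))

theorem fderiv_comm_add {S : E → V →L[ℝ] W} (hS : ContDiff ℝ 1 S) {t : ℝ} (ht0 : 0 < t)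
    {v g : E → V} (hv : MemLp v 2 volume) (hgm : MemLp g 2 volume) :
    fderiv ℝ (comm S t v) = fderiv ℝ (comm S t (v - g)) + fderiv ℝ (comm S t g) := by
  have hlin : comm S t v = comm S t (v - g) + comm S t g := by
    funext x
    have a1 := moll_sub ht0 (locInt hv) (locInt hgm) x
    have a2 := moll_sub ht0 (locInt_S hS.continuous (locInt hv))
      (locInt_S hS.continuous (locInt hgm)) x
    have a3 : (fun y => S y ((v - g) y)) = (fun y => S y (v y)) - (fun y => S y (g y)) := by
      funext y; simp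
    simp only [comm, Pi.add_apply, a3, a1, a2, map_sub]
    abel
  funext x
  have d1 : DifferentiableAt ℝ (comm S t (v - g)) x :=
    ((contDiff_comm hS ht0 (hv.sub hgm)).differentiable (by norm_num)).differentiableAt
  have d2 : DifferentiableAt ℝ (comm S t g) x :=
    ((contDiff_comm hS ht0 hgm).differentiable (by norm_num)).differentiableAt
  rw [hlin, fderiv_add d1 d2]
  rfl

theorem friedrichs_aux {S : E → V →L[ℝ] W} (hS : ContDiff ℝ 1 S) {L : ℝ} (hL : 0 ≤ L)
    (hSL : ∀ x, ‖fderiv ℝ S x‖ ≤ L) {v g : E → V} (hv : MemLp v 2 volume)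
    (hgm : MemLp g 2 volume) {t : ℝ} (ht0 : 0 < t) {a b : ℝ≥0∞}
    (hvg : eLpNorm (v - g) 2 volume ≤ a) (hg : eLpNorm (fderiv ℝ (comm S t g)) 2 volume ≤ b) :
    eLpNorm (fderiv ℝ (comm S t v)) 2 volume ≤ ENNReal.ofReal (L * (1 + mC E)) * a + b := by
  rw [fderiv_comm_add hS ht0 hv hgm]
  refine (eLpNorm_add_le
    ((contDiff_comm hS ht0 (hv.sub hgm)).continuous_fderiv (by simp)).aestronglyMeasurable
    ((contDiff_comm hS ht0 hgm).continuous_fderiv (by simp)).aestronglyMeasurable
    (by norm_num)).trans ?_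
  refine add_le_add ((eLpNorm_comm_le hS hL hSL ht0 (hv.sub hgm)).trans ?_) hg
  gcongr

/-- **Friedrichs' lemma** : the derivative of the commutator tends to zero in `L²`. -/
theorem friedrichs {S : E → V →L[ℝ] W} (hS : ContDiff ℝ 1 S) {L : ℝ} (hL : 0 ≤ L)
    (hS0 : ∀ x, ‖S x‖ ≤ L) (hSL : ∀ x, ‖fderiv ℝ S x‖ ≤ L) {v : E → V} (hv : MemLp v 2 volume) :
    Tendsto (fun t : ℝ => eLpNorm (fderiv ℝ (comm S t v)) 2 volume) atTop (𝓝 0) := by
  rw [ENNReal.tendsto_atTop_zero]
  intro ε hε
  rcases eq_or_ne ε ⊤ with rfl | hεt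
  · exact ⟨0, fun _ _ => le_top⟩
  have hε' := ENNReal.toReal_pos hε.ne' hεt
  have hM : 0 ≤ mC E := mC_nonneg
  obtain ⟨C, hC⟩ : ∃ C : ℝ, C = L * (1 + mC E) + 1 := ⟨_, rfl⟩
  have hC0 : 0 < C := by rw [hC]; positivity
  have h2 : 0 < ε.toReal / (2 * C) := by positivity
  obtain ⟨g, hgc, hg, hvg⟩ := hv.exist_eLpNorm_sub_le (by norm_num) (by norm_num) h2
  have hg1 : ContDiff ℝ 1 g := hg.of_le (by exact_mod_cast le_top)
  obtain ⟨T, hT⟩ := (ENNReal.tendsto_atTop_zero.1 (tendsto_comm_smooth hS hL hS0 hSL hg1 hgc))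
    (ENNReal.ofReal (ε.toReal / 2)) (by simpa using hε')
  have hgm : MemLp g 2 volume := hg.continuous.memLp_of_hasCompactSupport hgc
  refine ⟨max 1 T, fun t ht => ?_⟩
  have ht0 : 0 < t := lt_of_lt_of_le one_pos ((le_max_left _ _).trans ht)
  have h5 : L * (1 + mC E) * (ε.toReal / (2 * C)) ≤ ε.toReal / 2 := by
    have h6 : L * (1 + mC E) ≤ C := by rw [hC]; linarith
    calc L * (1 + mC E) * (ε.toReal / (2 * C)) ≤ C * (ε.toReal / (2 * C)) := by gcongr
      _ = ε.toReal / 2 := by field_simp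
  calc eLpNorm (fderiv ℝ (comm S t v)) 2 volume
      ≤ ENNReal.ofReal (L * (1 + mC E)) * ENNReal.ofReal (ε.toReal / (2 * C))
        + ENNReal.ofReal (ε.toReal / 2) :=
        friedrichs_aux hS hL hSL hv hgm ht0 hvg (hT t ((le_max_right _ _).trans ht))
    _ = ENNReal.ofReal (L * (1 + mC E) * (ε.toReal / (2 * C)) + ε.toReal / 2) := by
        rw [← ENNReal.ofReal_mul (by positivity), ← ENNReal.ofReal_add (by positivity)
          (by positivity)]
    _ ≤ ENNReal.ofReal ε.toReal := ENNReal.ofReal_le_ofReal (by linarith)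
    _ = ε := ENNReal.ofReal_toReal hεt

/-- A smooth cutoff function with compact support in `Ω`, equal to one near the compact set
`K`. -/
theorem exists_cutoff {K Ω : Set E} (hK : IsCompact K) (hΩ : IsOpen Ω) (hKΩ : K ⊆ Ω) :
    ∃ χ : E → ℝ, ContDiff ℝ ∞ χ ∧ HasCompactSupport χ ∧ tsupport χ ⊆ Ω ∧
      (∀ᶠ x in 𝓝ˢ K, χ x = 1) ∧ ∀ x, χ x ∈ Set.Icc (0 : ℝ) 1 := by
  obtain ⟨L, hL, hKL, hLΩ⟩ := exists_compact_between hK hΩ hKΩ
  obtain ⟨f, hf0, hf1, hf⟩ := exists_contMDiffMap_zero_one_nhds_of_isClosed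
    (modelWithCornersSelf ℝ E) (n := ⊤) (s := (interior L)ᶜ) (t := K)
    isOpen_interior.isClosed_compl hK.isClosed
    (Set.disjoint_left.2 fun x hx hxK => hx (hKL hxK))
  have hts : tsupport f ⊆ L := by
    refine closure_minimal (fun x hx => ?_) hL.isClosed
    by_contra hxL
    apply hx
    have : x ∈ (interior L)ᶜ := fun h => hxL (interior_subset h)
    exact hf0.self_of_nhdsSet x this
  refine ⟨f, ?_, HasCompactSupport.of_support_subset_isCompact hL ((subset_tsupport _).trans hts),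
    hts.trans hLΩ, hf1, hf⟩
  exact f.contMDiff.contDiff

theorem bdd_of_cs {G : E → W} (hG : ContDiff ℝ 1 G) (hGc : HasCompactSupport G) :
    ∃ L : ℝ, 0 ≤ L ∧ (∀ x, ‖G x‖ ≤ L) ∧ ∀ x, ‖fderiv ℝ G x‖ ≤ L := by
  obtain ⟨L1, h1⟩ := hGc.exists_bound_of_continuous hG.continuous
  obtain ⟨L2, h2⟩ := (hGc.fderiv (𝕜 := ℝ)).exists_bound_of_continuous
    (hG.continuous_fderiv (by simp))
  exact ⟨max L1 L2, (norm_nonneg _).trans ((h1 0).trans (le_max_left _ _)),
    fun x => (h1 x).trans (le_max_left _ _), fun x => (h2 x).trans (le_max_right _ _)⟩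

theorem contDiff_ext {Ω : Set E} (hΩ : IsOpen Ω) {G : E → W} (hG : ContDiffOn ℝ 1 G Ω)
    {χ : E → ℝ} (hχ : ContDiff ℝ ∞ χ) (hχs : tsupport χ ⊆ Ω) :
    ContDiff ℝ 1 (fun x => χ x • G x) := by
  rw [contDiff_iff_contDiffAt]
  intro x
  by_cases hx : x ∈ Ω
  · exact ((hχ.of_le (by exact_mod_cast le_top)).contDiffAt).smul
      (hG.contDiffAt (hΩ.mem_nhds hx))
  · have hx' : x ∉ tsupport χ := fun h => hx (hχs h)
    have : (fun x => χ x • G x) =ᶠ[𝓝 x] fun _ => 0 := by
      filter_upwards [(isClosed_tsupport χ).isOpen_compl.mem_nhds hx'] with y hy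
      simp [image_eq_zero_of_notMem_tsupport hy]
    exact contDiffAt_const.congr_of_eventuallyEq this

theorem cs_ext {χ : E → ℝ} (hχ : HasCompactSupport χ) (G : E → W) :
    HasCompactSupport (fun x => χ x • G x) := hχ.smul_right

theorem exists_ext {K Ω : Set E} (hK : IsCompact K) (hΩ : IsOpen Ω) (hKΩ : K ⊆ Ω)
    {G : E → W} (hG : ContDiffOn ℝ 1 G Ω) :
    ∃ G' : E → W, ContDiff ℝ 1 G' ∧ (∀ᶠ x in 𝓝ˢ K, G' x = G x) ∧
      ∃ L : ℝ, 0 ≤ L ∧ (∀ x, ‖G' x‖ ≤ L) ∧ ∀ x, ‖fderiv ℝ G' x‖ ≤ L := by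
  obtain ⟨χ, hχ, hχc, hχs, hχ1, -⟩ := exists_cutoff hK hΩ hKΩ
  have h1 := contDiff_ext hΩ hG hχ hχs
  have h2 := bdd_of_cs h1 (cs_ext hχc G)
  refine ⟨_, h1, ?_, h2⟩
  filter_upwards [hχ1] with x hx
  rw [hx, one_smul]

/-- **Friedrichs' lemma for a pair of weak equations** `T (D v) = f`, `T' (D (S v)) = g`. -/
theorem friedrichs_pair {V' W' : Type*} [NormedAddCommGroup V'] [NormedSpace ℝ V']
    [CompleteSpace V'] [NormedAddCommGroup W'] [NormedSpace ℝ W'] [CompleteSpace W']
    {Ω : Set E} (hΩ : IsOpen Ω) (T : (E →L[ℝ] V) →L[ℝ] W) (T' : (E →L[ℝ] V') →L[ℝ] W')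
    {S : E → V →L[ℝ] V'} (hS : ContDiffOn ℝ 1 S Ω) {v : E → V} (hv : MemLp v 2 volume)
    (hvc : HasCompactSupport v) (hvΩ : tsupport v ⊆ Ω) {f : E → W} (hf : MemLp f 2 volume)
    {g : E → W'} (hg : MemLp g 2 volume) (h1 : WeakP T v f)
    (h2 : WeakP T' (fun x => S x (v x)) g) {ε : ℝ≥0∞} (hε : 0 < ε) :
    ∃ u : E → V, ContDiff ℝ ∞ u ∧ HasCompactSupport u ∧ tsupport u ⊆ Ω ∧
      eLpNorm (u - v) 2 volume ≤ ε ∧
      eLpNorm (fun x => T (fderiv ℝ u x) - f x) 2 volume ≤ ε ∧
      eLpNorm (fun x => T' (fderiv ℝ (fun y => S y (u y)) x) - g x) 2 volume ≤ ε := by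
  obtain ⟨r, hr, hrΩ⟩ := hvc.exists_cthickening_subset_open hΩ hvΩ
  have hKr : IsCompact (Metric.cthickening r (tsupport v)) := IsCompact.cthickening hvc
  obtain ⟨S', hS'C, hS'1, L, hL, hL1, hL2⟩ := exists_ext hKr hΩ hrΩ hS
  have hSv : (fun x => S' x (v x)) = fun x => S x (v x) := by
    funext x
    by_cases hx : x ∈ tsupport v
    · have : S' x = S x := hS'1.self_of_nhdsSet x (Metric.self_subset_cthickening _ hx)
      rw [this]
    · simp [image_eq_zero_of_notMem_tsupport hx]
  have hF := friedrichs hS'C hL hL1 hL2 hv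
  -- choose t
  have hTpos : (0 : ℝ≥0∞) < ε / 2 := ENNReal.div_pos hε.ne' (by simp)
  have hlim1 := tendsto_moll hv
  have hlim2 := tendsto_moll hf
  have hlim3 := tendsto_moll hg
  have hlim4 : Tendsto (fun t : ℝ => ENNReal.ofReal ‖T'‖ *
      eLpNorm (fderiv ℝ (comm S' t v)) 2 volume) atTop (𝓝 0) := by
    have := ENNReal.Tendsto.const_mul (a := ENNReal.ofReal ‖T'‖) hF
      (Or.inr ENNReal.ofReal_ne_top)
    simpa using this
  have ev := ((hlim1.eventually (Iic_mem_nhds hε)).and
    (hlim2.eventually (Iic_mem_nhds hε))).and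
    (((hlim3.eventually (Iic_mem_nhds hTpos)).and
    (hlim4.eventually (Iic_mem_nhds hTpos))).and
    ((eventually_gt_atTop (0 : ℝ)).and (eventually_ge_atTop (1 / r))))
  obtain ⟨t, ⟨ht1, ht2⟩, ⟨ht3, ht4⟩, ht0, htr⟩ := ev.exists
  have hsup : tsupport (moll t v) ⊆ Metric.cthickening r (tsupport v) := by
    refine closure_minimal ?_ Metric.isClosed_cthickening
    refine (moll_support ht0 v).trans ?_
    refine (Metric.thickening_subset_of_subset _ (subset_tsupport v)).trans ?_
    refine (Metric.thickening_mono ?_ _).trans (Metric.thickening_subset_cthickening _ _)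
    rw [div_le_iff₀ ht0]
    rw [div_le_iff₀ hr] at htr
    linarith
  refine ⟨moll t v, moll_contDiff ht0 (locInt hv), moll_compact ht0 hvc, hsup.trans hrΩ, ht1, ?_,
    ?_⟩
  · have : (fun x => T (fderiv ℝ (moll t v) x) - f x) = moll t f - f := by
      funext x
      rw [h1.moll (locInt hv) ht0 x]
      rfl
    rw [this]; exact ht2
  · have hlSv : LocallyIntegrable (fun x => S' x (v x)) := locInt_S hS'C.continuous (locInt hv)
    have e : (fun x => T' (fderiv ℝ (fun y => S y (moll t v y)) x) - g x)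
        = (fun x => T' (fderiv ℝ (comm S' t v) x)) + (moll t g - g) := by
      funext x
      have e1 : (fun y => S y (moll t v y)) =ᶠ[𝓝 x]
          fun y => comm S' t v y + moll t (fun y => S' y (v y)) y := by
        have e2 : (fun y => comm S' t v y + moll t (fun y => S' y (v y)) y)
            = fun y => S' y (moll t v y) := by
          funext y; simp [comm]
        rw [e2]
        by_cases hx : x ∈ tsupport (moll t v)
        · have := hS'1.filter_mono (nhds_le_nhdsSet (hsup hx))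
          filter_upwards [this] with y hy
          rw [hy]
        · filter_upwards [(isClosed_tsupport (moll t v)).isOpen_compl.mem_nhds hx] with y hy
          simp [image_eq_zero_of_notMem_tsupport hy]
      have d1 : DifferentiableAt ℝ (comm S' t v) x :=
        ((contDiff_comm hS'C ht0 hv).differentiable (by norm_num)).differentiableAt
      have d2 : DifferentiableAt ℝ (moll t (fun y => S' y (v y))) x :=
        ((moll_contDiff ht0 hlSv).differentiable (by simp)).differentiableAt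
      have e3 := e1.fderiv_eq (𝕜 := ℝ)
      rw [e3]
      have e4 : fderiv ℝ (fun y => comm S' t v y + moll t (fun y => S' y (v y)) y) x
          = fderiv ℝ (comm S' t v) x + fderiv ℝ (moll t (fun y => S' y (v y))) x :=
        fderiv_fun_add d1 d2
      rw [e4, map_add]
      have h2' : WeakP T' (fun x => S' x (v x)) g := by rw [hSv]; exact h2
      rw [h2'.moll hlSv ht0 x]
      simp only [Pi.add_apply, Pi.sub_apply]
      abel
    rw [e]
    have mA : AEStronglyMeasurable (fun x => T' (fderiv ℝ (comm S' t v) x)) volume :=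
      (T'.continuous.comp ((contDiff_comm hS'C ht0 hv).continuous_fderiv
        (by simp))).aestronglyMeasurable
    have mB : AEStronglyMeasurable (moll t g - g) volume :=
      (moll_contDiff ht0 (locInt hg)).continuous.aestronglyMeasurable.sub hg.1
    refine (eLpNorm_add_le mA mB (by norm_num)).trans ?_
    calc eLpNorm (fun x => T' (fderiv ℝ (comm S' t v) x)) 2 volume + eLpNorm (moll t g - g) 2 volume
        ≤ ε / 2 + ε / 2 := by
          refine add_le_add ?_ ht3
          refine (eLpNorm_le_mul' (norm_nonneg T') fun x => ?_).trans ht4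
          exact T'.le_opNorm _
      _ = ε := ENNReal.add_halves ε

end Moll

end EurHuhC.Fried
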